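import Mathlib

set_option autoImplicit false

/-!
# MP_2aafb6_co: the shift identity `N(b+k, c+2k, k) = N(b, c, k) + k` for `b ≤ c < 2b`

`N(b, c, k)` is the least positive `n` such that every admissible sequence `a 0, …, a n` (strictly
increasing from `0`, `a (i + b) ≤ a i + c`) hits the difference `k`.

* `≤`: in a sequence avoiding `k` one has `a (i + k) ≥ a i + 2k` (pigeonhole modulo `k`), so
  `i ↦ a (i + k) - a k` turns an admissible sequence for `(b + k, c + 2k)` into one for `(b, c)`.
* `≥`, when `N(b, c, k) ≤ 2b`: in an avoiding sequence for `(b, c)` a block of `k` new terms,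
  one in each residue class modulo `k` of the interval `[t, t + 2k)`, `t = a (b - 1) + 1`, is
  inserted before `a b`, and the later terms are shifted by `2k`.
* `≥`, when `N(b, c, k) > 2b`: a counting argument shows `N(b, c, k) ≤ max k (2b)`, so
  `N(b, c, k) ≤ k`, and `0, …, k - 1, 2k, …, 3k - 1` is admissible for `(b + k, c + 2k)` and avoids
  `k`.
-/

open Finset

namespace Pool.Agent.Results.MP_2aafb6_co.ShiftIdentity

/-- The integer sequence `a 0, …, a n` is admissible for `b, c`. -/
def Admissible (b c n : ℕ) (a : ℕ → ℤ) : Prop :=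
  a 0 = 0 ∧ (∀ i, i < n → a i < a (i + 1)) ∧ ∀ i, i + b ≤ n → a (i + b) ≤ a i + c

/-- The sequence `a 0, …, a n` hits `k`. -/
def HitsDiff (k n : ℕ) (a : ℕ → ℤ) : Prop :=
  ∃ i j, i < j ∧ j ≤ n ∧ a j - a i = k

/-- The positive integers `n` such that every admissible `a 0, …, a n` hits `k`. -/
def forcing (b c k : ℕ) : Set ℕ :=
  {n | 0 < n ∧ ∀ a : ℕ → ℤ, Admissible b c n a → HitsDiff k n a}

/-- `N(b, c, k)`, the least element of `forcing b c k`, and `⊤` if there is none. -/
noncomputable def N (b c k : ℕ) : ℕ∞ := ⨅ n ∈ forcing b c k, (n : ℕ∞)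

/-! ### Sequences of natural numbers -/

def Adm (b c n : ℕ) (a : ℕ → ℕ) : Prop :=
  a 0 = 0 ∧ (∀ i, i < n → a i < a (i + 1)) ∧ ∀ i, i + b ≤ n → a (i + b) ≤ a i + c

def Hits (k n : ℕ) (a : ℕ → ℕ) : Prop := ∃ i j, i < j ∧ j ≤ n ∧ a j = a i + k

def good (b c k : ℕ) : Set ℕ := {n | 0 < n ∧ ∀ a : ℕ → ℕ, Adm b c n a → Hits k n a}

theorem forcing_eq (b c k : ℕ) : forcing b c k = good b c k := by
  ext n
  constructor
  · rintro ⟨h0, h⟩
    refine ⟨h0, fun a ha => ?_⟩
    obtain ⟨i, j, hij, hj, e⟩ := h (fun i => (a i : ℤ)) ⟨by simp [ha.1],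
      fun i hi => by simp only; exact_mod_cast ha.2.1 i hi,
      fun i hi => by simp only; exact_mod_cast ha.2.2 i hi⟩
    exact ⟨i, j, hij, hj, by simp only at e; omega⟩
  · rintro ⟨h0, h⟩
    refine ⟨h0, fun a ha => ?_⟩
    have hnn : ∀ i, i ≤ n → 0 ≤ a i := by
      intro i
      induction i with
      | zero => intro _; rw [ha.1]
      | succ i ih =>
        intro hi
        have := ih (by omega)
        have := ha.2.1 i (by omega)
        omega
    obtain ⟨i, j, hij, hj, e⟩ := h (fun i => (a i).toNat) ⟨by simp [ha.1],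
      fun i hi => by
        have h1 := ha.2.1 i hi
        have h2 := hnn i (by omega)
        simp only
        omega,
      fun i hi => by
        have h1 := ha.2.2 i hi
        have h2 := hnn i (by omega)
        have h3 := hnn (i + b) (by omega)
        simp only
        omega⟩
    refine ⟨i, j, hij, hj, ?_⟩
    have h2 := hnn i (by omega)
    have h3 := hnn j (by omega)
    simp only at e
    omega

theorem Adm.lt {b c n : ℕ} {a : ℕ → ℕ} (h : Adm b c n a) {i j : ℕ} (hij : i < j) (hj : j ≤ n) :
    a i < a j := by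
  induction j with
  | zero => omega
  | succ j ih =>
    have h1 := h.2.1 j (by omega)
    rcases Nat.lt_succ_iff_lt_or_eq.mp hij with h2 | h2
    · exact lt_trans (ih h2 (by omega)) h1
    · rw [h2]; exact h1

theorem Adm.le {b c n : ℕ} {a : ℕ → ℕ} (h : Adm b c n a) {i j : ℕ} (hij : i ≤ j) (hj : j ≤ n) :
    a i ≤ a j := by
  rcases Nat.lt_or_eq_of_le hij with h1 | h1
  · exact (h.lt h1 hj).le
  · rw [h1]

theorem Adm.idx_le {b c n : ℕ} {a : ℕ → ℕ} (h : Adm b c n a) {i : ℕ} (hi : i ≤ n) : i ≤ a i := by
  induction i with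
  | zero => omega
  | succ i ih =>
    have h1 := h.2.1 i (by omega)
    have h2 := ih (by omega)
    omega

theorem Adm.mono {b c n m : ℕ} {a : ℕ → ℕ} (h : Adm b c n a) (hm : m ≤ n) : Adm b c m a :=
  ⟨h.1, fun i hi => h.2.1 i (by omega), fun i hi => h.2.2 i (by omega)⟩

theorem Hits.mono {k n m : ℕ} {a : ℕ → ℕ} (h : Hits k m a) (hm : m ≤ n) : Hits k n a := by
  obtain ⟨i, j, h1, h2, h3⟩ := h
  exact ⟨i, j, h1, by omega, h3⟩

/-- the gap lemma -/
theorem gap {b c k n : ℕ} (hk : 0 < k) {a : ℕ → ℕ} (h : Adm b c n a) (hh : ¬ Hits k n a)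
    {i : ℕ} (hi : i + k ≤ n) : a i + 2 * k ≤ a (i + k) := by
  by_contra hlt
  have hcard : (range k).card < (range (k + 1)).card := by simp
  obtain ⟨x, hx, y, hy, hxy, e⟩ := Finset.exists_ne_map_eq_of_card_lt_of_maps_to
    (f := fun j => a (i + j) % k) hcard (fun j _ => by
      simp only [coe_range, Set.mem_Iio]
      exact Nat.mod_lt _ hk)
  rw [mem_range] at hx hy
  wlog hlt' : x < y generalizing x y
  · exact this y hy x hx (Ne.symm hxy) e.symm (by omega)
  apply hh
  refine ⟨i + x, i + y, by omega, by omega, ?_⟩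
  have h1 := h.lt (i := i + x) (j := i + y) (by omega) (by omega)
  have h2 := h.le (i := i) (j := i + x) (by omega) (by omega)
  have h3 := h.le (i := i + y) (j := i + k) (by omega) (by omega)
  obtain ⟨q, hq⟩ : k ∣ a (i + y) - a (i + x) := (Nat.modEq_iff_dvd' h1.le).mp e
  have h4 : q = 1 := by
    have h5 : k * q < k * 2 := by omega
    have h6 : q < 2 := lt_of_mul_lt_mul_left h5 (by omega)
    have h7 : q ≠ 0 := by
      rintro rfl
      omega
    omega
  subst h4
  omega

/-- **Upper bound.** -/
theorem upper {b c k n : ℕ} (hk : 0 < k) (h : n ∈ good b c k) :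
    n + k ∈ good (b + k) (c + 2 * k) k := by
  refine ⟨by omega, fun a' ha' => ?_⟩
  by_contra hh
  have hg : ∀ i, i + k ≤ n + k → a' i + 2 * k ≤ a' (i + k) := fun i hi => gap hk ha' hh hi
  have hge : ∀ i, i ≤ n → a' k ≤ a' (i + k) := fun i hi => ha'.le (by omega) (by omega)
  have hadm : Adm b c n (fun i => a' (i + k) - a' k) := by
    refine ⟨by simp, fun i hi => ?_, fun i hi => ?_⟩
    · have h1 := ha'.2.1 (i + k) (by omega)
      have h2 := hge i (by omega)
      rw [show i + k + 1 = i + 1 + k by ring] at h1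
      simp only
      omega
    · have h1 := ha'.2.2 i (by omega)
      have h2 := hg i (by omega)
      have h3 := hge i (by omega)
      rw [show i + (b + k) = i + b + k by ring] at h1
      simp only
      omega
  obtain ⟨i, j, hij, hj, e⟩ := h.2 _ hadm
  apply hh
  refine ⟨i + k, j + k, by omega, by omega, ?_⟩
  have h1 := hge i (by omega)
  have h2 := hge j (by omega)
  simp only at e
  omega

/-- `n ≥ b` for every forcing `n` -/
theorem le_of_good {b c k n : ℕ} (hk : 0 < k) (h : n ∈ good b c k) : b ≤ n := by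
  by_contra hlt
  obtain ⟨i, j, hij, hj, e⟩ := h.2 (fun i => (k + 1) * i)
    ⟨by simp, fun i _ => by simp only; nlinarith, fun i hi => by omega⟩
  simp only at e
  obtain ⟨d, rfl⟩ : ∃ d, j = i + 1 + d := ⟨j - (i + 1), by omega⟩
  nlinarith [Nat.zero_le (k * d), Nat.zero_le d]

/-- the values of `a` below `n` -/
def vals (a : ℕ → ℕ) (n : ℕ) : Finset ℕ := (range (n + 1)).image a

theorem mem_vals {a : ℕ → ℕ} {n x : ℕ} : x ∈ vals a n ↔ ∃ i, i ≤ n ∧ a i = x := by
  simp [vals]

theorem card_vals {b c n : ℕ} {a : ℕ → ℕ} (h : Adm b c n a) : (vals a n).card = n + 1 := by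
  unfold vals
  rw [Finset.card_image_of_injOn, card_range]
  intro i hi j hj e
  simp only [coe_range, Set.mem_Iio] at hi hj
  rcases lt_trichotomy i j with h1 | h1 | h1
  · have := h.lt h1 (by omega); omega
  · exact h1
  · have := h.lt h1 (by omega); omega

/-- a window of length `c` starting at `s` contains at least `b` terms -/
theorem window {b c n s : ℕ} {a : ℕ → ℕ} (h : Adm b c n a) (hbn : b ≤ n) (hb : 0 < b)
    (hs : s + c ≤ a n + 1) : b ≤ ((vals a n).filter fun x => s ≤ x ∧ x < s + c).card := by
  classical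
  have hex : ∃ i, i ≤ n ∧ s ≤ a i := by
    by_contra hno
    push Not at hno
    have h1 := hno n le_rfl
    have h2 : c ≤ 0 := by omega
    have h3 := h.2.2 0 (by omega)
    rw [zero_add, h.1] at h3
    have h4 := h.idx_le hbn
    omega
  obtain ⟨hi0, hi1⟩ := Nat.find_spec hex
  have hmin : ∀ j, j < Nat.find hex → a j < s := by
    intro j hj
    have := Nat.find_min hex hj
    by_contra hcon
    exact this ⟨by omega, by omega⟩
  set i := Nat.find hex with hidef
  -- the last one
  have hlast : i + b - 1 ≤ n ∧ a (i + b - 1) < s + c := by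
    rcases Nat.eq_zero_or_pos i with h0 | h0
    · have h1 := h.2.2 0 (by omega)
      rw [zero_add, h.1] at h1
      have h2 := h.lt (i := i + b - 1) (j := b) (by omega) hbn
      exact ⟨by omega, by omega⟩
    · have h1 := hmin (i - 1) (by omega)
      have h2 : i - 1 + b ≤ n := by
        by_contra hcon
        have h3 := h.lt (i := n - b) (j := i - 1) (by omega) (by omega)
        have h4 := h.2.2 (n - b) (by omega)
        rw [show n - b + b = n by omega] at h4
        omega
      have h3 := h.2.2 (i - 1) h2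
      rw [show i - 1 + b = i + b - 1 by omega] at h3 h2
      exact ⟨h2, by omega⟩
  have hsub : (range b).image (fun j => a (i + j)) ⊆
      (vals a n).filter fun x => s ≤ x ∧ x < s + c := by
    intro x hx
    rw [mem_image] at hx
    obtain ⟨j, hj, rfl⟩ := hx
    rw [mem_range] at hj
    rw [mem_filter, mem_vals]
    have h1 := h.le (i := i) (j := i + j) (by omega) (by omega)
    have h2 := h.le (i := i + j) (j := i + b - 1) (by omega) (by omega)
    exact ⟨⟨i + j, by omega, rfl⟩, by omega, by omega⟩
  have hcard : ((range b).image (fun j => a (i + j))).card = b := by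
    rw [Finset.card_image_of_injOn, card_range]
    intro x hx y hy e
    simp only [coe_range, Set.mem_Iio] at hx hy
    simp only at e
    rcases lt_trichotomy x y with h1 | h1 | h1
    · have := h.lt (i := i + x) (j := i + y) (by omega) (by omega); omega
    · exact h1
    · have := h.lt (i := i + y) (j := i + x) (by omega) (by omega); omega
  rw [← hcard]
  exact card_le_card hsub

/-- **`max k (2b)` is forcing.** -/
theorem forcing_bound {b c k n : ℕ} (hb : 0 < b) (hk : 0 < k) (hc : c < 2 * b) (h1 : k ≤ n)
    (h2 : 2 * b ≤ n) : n ∈ good b c k := by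
  classical
  refine ⟨by omega, fun a ha => ?_⟩
  by_contra hh
  set L := a n with hL
  have hLn : n ≤ L := ha.idx_le le_rfl
  set A := vals a n with hA
  have hAle : ∀ x ∈ A, x ≤ L := by
    intro x hx
    obtain ⟨i, hi, rfl⟩ := mem_vals.mp hx
    exact ha.le hi le_rfl
  have hav : ∀ x ∈ A, ∀ y ∈ A, y ≠ x + k := by
    intro x hx y hy e
    obtain ⟨i, hi, rfl⟩ := mem_vals.mp hx
    obtain ⟨j, hj, rfl⟩ := mem_vals.mp hy
    apply hh
    refine ⟨i, j, ?_, hj, e⟩
    by_contra hcon
    have := ha.le (i := j) (j := i) (by omega) hi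
    omega
  -- shifting
  have hshift : ∀ (p q : ℕ → Prop) [DecidablePred p] [DecidablePred q] (I : Finset ℕ),
      (∀ x ∈ A, p x → x + k ∈ I) → (∀ x ∈ A, q x → x ∈ I) →
      (A.filter p).card + (A.filter q).card ≤ I.card := by
    intro p q _ _ I hp hq
    have e1 : ((A.filter p).image (· + k)).card = (A.filter p).card :=
      Finset.card_image_of_injective _ (add_left_injective k)
    rw [← e1, ← card_union_of_disjoint]
    · apply card_le_card
      intro x hx
      rw [mem_union] at hx
      rcases hx with hx | hx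
      · rw [mem_image] at hx
        obtain ⟨y, hy, rfl⟩ := hx
        rw [mem_filter] at hy
        exact hp y hy.1 hy.2
      · rw [mem_filter] at hx
        exact hq x hx.1 hx.2
    · rw [Finset.disjoint_left]
      intro x hx hx'
      rw [mem_image] at hx
      obtain ⟨y, hy, rfl⟩ := hx
      rw [mem_filter] at hy hx'
      exact hav y hy.1 _ hx'.1 rfl
  by_cases hbig : k + c ≤ L + 1
  · have w1 := window (s := 0) ha (by omega) hb (by omega)
    have w2 := window (s := k) ha (by omega) hb (by omega)
    have := hshift (fun x => 0 ≤ x ∧ x < 0 + c) (fun x => k ≤ x ∧ x < k + c) (Finset.Ico k (k + c))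
      (fun x _ hx => by rw [mem_Ico]; omega) (fun x _ hx => by rw [mem_Ico]; omega)
    rw [Nat.card_Ico] at this
    rw [← hA] at w1 w2
    omega
  · have hs := hshift (fun x => x + k ≤ L) (fun x => k ≤ x) (Finset.Icc k L)
      (fun x _ hx => by rw [mem_Icc]; omega)
      (fun x hx hx' => by rw [mem_Icc]; exact ⟨hx', hAle x hx⟩)
    rw [Nat.card_Icc] at hs
    have hcA : A.card = n + 1 := card_vals ha
    by_cases h2k : L < 2 * k
    · have hu : A ⊆ (A.filter fun x => x + k ≤ L) ∪ (A.filter fun x => k ≤ x) ∪
          Finset.Ico (L + 1 - k) k := by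
        intro x hx
        rw [mem_union, mem_union, mem_filter, mem_filter, mem_Ico]
        by_cases h3 : x + k ≤ L
        · exact Or.inl (Or.inl ⟨hx, h3⟩)
        · by_cases h4 : k ≤ x
          · exact Or.inl (Or.inr ⟨hx, h4⟩)
          · exact Or.inr (by omega)
      have h5 := (card_le_card hu).trans ((card_union_le _ _).trans
        (Nat.add_le_add_right (card_union_le _ _) _))
      rw [Nat.card_Ico] at h5
      omega
    · have hu : A ⊆ (A.filter fun x => x + k ≤ L) ∪ (A.filter fun x => k ≤ x) := by
        intro x hx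
        rw [mem_union, mem_filter, mem_filter]
        by_cases h3 : x + k ≤ L
        · exact Or.inl ⟨hx, h3⟩
        · exact Or.inr ⟨hx, by omega⟩
      have h5 := (card_le_card hu).trans (card_union_le _ _)
      omega

/-- **Insertion of a block.** -/
theorem insert_block {b c k n : ℕ} (hb : 0 < b) (hk : 0 < k) (hbn : b ≤ n + 1) (hn : n + 1 ≤ 2 * b)
    {a : ℕ → ℕ} (ha : Adm b c n a) (hh : ¬ Hits k n a) :
    ∃ a', Adm (b + k) (c + 2 * k) (n + k) a' ∧ ¬ Hits k (n + k) a' := by
  classical
  have hav : ∀ i j, i ≤ n → j ≤ n → a j ≠ a i + k := by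
    intro i j hi hj e
    apply hh
    refine ⟨i, j, ?_, hj, e⟩
    by_contra hcon
    have := ha.le (i := j) (j := i) (by omega) hi
    omega
  set t := a (b - 1) + 1 with ht
  have hlow : ∀ i, i < b → a i < t := by
    intro i hi
    have := ha.le (i := i) (j := b - 1) (by omega) (by omega)
    omega
  have hhigh : ∀ i, b ≤ i → i ≤ n → t ≤ a i := by
    intro i hi hi'
    have := ha.lt (i := b - 1) (j := i) (by omega) hi'
    omega
  let f : ℕ → ℕ := fun j => if t + j ∈ vals a n then t + j else t + k + j
  have hf : ∀ j, f j = t + j ∧ t + j ∈ vals a n ∨ f j = t + k + j ∧ t + j ∉ vals a n := by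
    intro j
    by_cases h : t + j ∈ vals a n
    · left; exact ⟨by simp only [f, if_pos h], h⟩
    · right; exact ⟨by simp only [f, if_neg h], h⟩
  have hcard : ((range k).image f).card = k := by
    rw [Finset.card_image_of_injOn, card_range]
    intro x hx y hy e
    simp only [coe_range, Set.mem_Iio] at hx hy
    rcases hf x with h1 | h1 <;> rcases hf y with h2 | h2 <;> omega
  let e : Fin k ↪o ℕ := ((range k).image f).orderEmbOfFin hcard
  have he : ∀ j : Fin k, ∃ i, i < k ∧ e j = f i := by
    intro j
    have h1 : e j ∈ (range k).image f := Finset.orderEmbOfFin_mem _ hcard j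
    rw [mem_image] at h1
    obtain ⟨i, hi, h2⟩ := h1
    exact ⟨i, mem_range.mp hi, h2.symm⟩
  have hebd : ∀ j : Fin k, t ≤ e j ∧ e j < t + 2 * k := by
    intro j
    obtain ⟨i, hi, h⟩ := he j
    rcases hf i with h1 | h1 <;> omega
  let a' : ℕ → ℕ := fun j => if j < b then a j else
    if h : j - b < k then e ⟨j - b, h⟩ else a (j - k) + 2 * k
  have h1' : ∀ j, j < b → a' j = a j := fun j hj => by simp only [a', if_pos hj]
  have h2' : ∀ j (h : j - b < k), b ≤ j → a' j = e ⟨j - b, h⟩ := fun j h hj => by
    simp only [a', if_neg (Nat.not_lt.mpr hj), dif_pos h]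
  have h3' : ∀ j, b + k ≤ j → a' j = a (j - k) + 2 * k := fun j hj => by
    simp only [a', if_neg (show ¬ j < b by omega), dif_neg (show ¬ j - b < k by omega)]
  refine ⟨a', ⟨?_, ?_, ?_⟩, ?_⟩
  · rw [h1' 0 hb, ha.1]
  · intro i hi
    by_cases c1 : i + 1 < b
    · rw [h1' i (by omega), h1' (i + 1) c1]
      exact ha.2.1 i (by omega)
    · by_cases c2 : i + 1 = b
      · rw [h1' i (by omega), h2' (i + 1) (by omega) (by omega)]
        have := hlow i (by omega)
        have := (hebd ⟨i + 1 - b, by omega⟩).1
        omega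
      · by_cases c3 : i + 1 < b + k
        · rw [h2' i (by omega) (by omega), h2' (i + 1) (by omega) (by omega)]
          apply e.strictMono
          rw [Fin.lt_def]
          simp only
          omega
        · by_cases c4 : i + 1 = b + k
          · rw [h2' i (by omega) (by omega), h3' (i + 1) (by omega)]
            have := (hebd ⟨i - b, by omega⟩).2
            have := hhigh (i + 1 - k) (by omega) (by omega)
            omega
          · rw [h3' i (by omega), h3' (i + 1) (by omega)]
            have := ha.2.1 (i - k) (by omega)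
            rw [show i - k + 1 = i + 1 - k by omega] at this
            omega
  · intro i hi
    rw [h1' i (by omega), h3' (i + (b + k)) (by omega)]
    have := ha.2.2 i (by omega)
    rw [show i + (b + k) - k = i + b by omega]
    omega
  · rintro ⟨i, j, hij, hj, hE⟩
    by_cases ci : i < b
    · rw [h1' i ci] at hE
      by_cases cj : j < b
      · rw [h1' j cj] at hE
        exact hav i j (by omega) (by omega) hE
      · by_cases cj' : j < b + k
        · rw [h2' j (by omega) (by omega)] at hE
          obtain ⟨s, hs, h⟩ := he ⟨j - b, by omega⟩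
          have h4 := hlow i ci
          rcases hf s with ⟨h5, h6⟩ | ⟨h5, h6⟩
          · obtain ⟨i', hi', h7⟩ := mem_vals.mp h6
            exact hav i i' (by omega) hi' (by omega)
          · omega
        · rw [h3' j (by omega)] at hE
          have h4 := hlow i ci
          have h5 := hhigh (j - k) (by omega) (by omega)
          omega
    · by_cases ci' : i < b + k
      · rw [h2' i (by omega) (by omega)] at hE
        obtain ⟨s, hs, h⟩ := he ⟨i - b, by omega⟩
        by_cases cj' : j < b + k
        · rw [h2' j (by omega) (by omega)] at hE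
          obtain ⟨s', hs', h'⟩ := he ⟨j - b, by omega⟩
          rcases hf s with ⟨h5, h6⟩ | ⟨h5, h6⟩ <;> rcases hf s' with ⟨h7, h8⟩ | ⟨h7, h8⟩
          · omega
          · have : s' = s := by omega
            subst this
            exact h8 h6
          · omega
          · omega
        · rw [h3' j (by omega)] at hE
          have h4 := hhigh (j - k) (by omega) (by omega)
          rcases hf s with ⟨h5, h6⟩ | ⟨h5, h6⟩
          · omega
          · apply h6
            rw [mem_vals]
            exact ⟨j - k, by omega, by omega⟩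
      · rw [h3' i (by omega), h3' j (by omega)] at hE
        exact hav (i - k) (j - k) (by omega) (by omega) (by omega)

/-- **The explicit sequence.** -/
theorem explicit {b c k : ℕ} (hk : 0 < k) (hbc : b ≤ c) :
    ∃ a', Adm (b + k) (c + 2 * k) (2 * k - 1) a' ∧ ¬ Hits k (2 * k - 1) a' := by
  let a' : ℕ → ℕ := fun j => if j < k then j else j + k
  have h1 : ∀ j, j < k → a' j = j := fun j hj => by simp only [a', if_pos hj]
  have h2 : ∀ j, k ≤ j → a' j = j + k := fun j hj => by
    simp only [a', if_neg (Nat.not_lt.mpr hj)]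
  refine ⟨a', ⟨h1 0 hk, ?_, ?_⟩, ?_⟩
  · intro i hi
    by_cases c1 : i + 1 < k
    · rw [h1 i (by omega), h1 _ c1]; omega
    · by_cases c2 : i < k
      · rw [h1 i c2, h2 _ (by omega)]; omega
      · rw [h2 i (by omega), h2 _ (by omega)]; omega
  · intro i hi
    rw [h2 (i + (b + k)) (by omega)]
    by_cases c2 : i < k
    · rw [h1 i c2]; omega
    · rw [h2 i (by omega)]; omega
  · rintro ⟨i, j, hij, hj, hE⟩
    by_cases ci : i < k
    · rw [h1 i ci] at hE
      by_cases cj : j < k
      · rw [h1 j cj] at hE; omega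
      · rw [h2 j (by omega)] at hE; omega
    · rw [h2 i (by omega), h2 j (by omega)] at hE; omega

/-- **The shift of the least element.** -/
theorem isLeast_shift {b c k n : ℕ} (hb : 0 < b) (hk : 0 < k) (hbc : b ≤ c) (hc : c < 2 * b)
    (h : IsLeast (good b c k) n) : IsLeast (good (b + k) (c + 2 * k) k) (n + k) := by
  refine ⟨upper hk h.1, fun m hm => ?_⟩
  by_contra hlt
  have hlt' : m < n + k := by omega
  have hn0 : 0 < n := h.1.1
  -- it suffices to have an avoiding sequence at `n - 1 + k`
  suffices hs : ∃ a', Adm (b + k) (c + 2 * k) (n - 1 + k) a' ∧ ¬ Hits k (n - 1 + k) a' by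
    obtain ⟨a', h1, h2⟩ := hs
    exact h2 ((hm.2 a' (h1.mono (by omega))).mono (by omega))
  by_cases h2b : n ≤ 2 * b
  · obtain ⟨a, ha, hh⟩ : ∃ a, Adm b c (n - 1) a ∧ ¬ Hits k (n - 1) a := by
      by_cases h1 : n = 1
      · refine ⟨fun i => i, ⟨rfl, fun i hi => by omega, fun i hi => by omega⟩, ?_⟩
        rintro ⟨i, j, hij, hj, _⟩
        omega
      · by_contra hcon
        push Not at hcon
        have := h.2 (show n - 1 ∈ good b c k from ⟨by omega, hcon⟩)
        omega
    have hbn := le_of_good hk h.1
    exact insert_block hb hk (by omega) (by omega) ha hh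
  · have hmax := h.2 (forcing_bound (n := max k (2 * b)) hb hk hc (le_max_left _ _)
      (le_max_right _ _))
    have hnk : n ≤ k := by
      rcases le_total k (2 * b) with h3 | h3
      · rw [max_eq_right h3] at hmax; omega
      · rw [max_eq_left h3] at hmax; exact hmax
    obtain ⟨a', h1, h2⟩ := explicit hk hbc
    exact ⟨a', h1.mono (by omega), fun h3 => h2 (h3.mono (by omega))⟩

theorem N_eq {b c k n : ℕ} (h : IsLeast (good b c k) n) : N b c k = n := by
  unfold N
  rw [forcing_eq]
  apply le_antisymm
  · exact iInf₂_le n h.1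
  · refine le_iInf₂ fun m hm => ?_
    exact_mod_cast h.2 hm

/-- **The shift identity.** -/
theorem result (b c k : ℕ) (hb : 0 < b) (hk : 0 < k) (hbc : b ≤ c) (hc : c < 2 * b) :
    N (b + k) (c + 2 * k) k = N b c k + k ∧ N b c k ≠ ⊤ := by
  classical
  have hne : ∃ n, n ∈ good b c k :=
    ⟨max k (2 * b), forcing_bound hb hk hc (le_max_left _ _) (le_max_right _ _)⟩
  have hleast : IsLeast (good b c k) (Nat.find hne) :=
    ⟨Nat.find_spec hne, fun m hm => Nat.find_min' hne hm⟩
  rw [N_eq hleast, N_eq (isLeast_shift hb hk hbc hc hleast)]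
  exact ⟨by push_cast; rfl, ENat.coe_ne_top _⟩

end Pool.Agent.Results.MP_2aafb6_co.ShiftIdentity
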